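import Pool.Agent.H93.CP.Targets

/-!
MP_5607ba_lc, SQD: the sequence of products of swaps.
-/

set_option autoImplicit false

namespace Pool.Agent.H89.CPT

open Set Filter Topology Pool.Agent.H93.CP

lemma pr_append {G : Type} [Group G] (S : Gr G) (u v : List S.E) :
    S.pr (u ++ v) = S.pr u * S.pr v := by
  simp [Gr.pr]

/-- a swap does not create the second word -/
lemma swap_onto (hPWD : T_PWD) {G : Type} [Group G] [TopologicalSpace G] (S : Gr G)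
    (u v : List S.E) (σ : HC S.Path G) (hσ : IsSwap S u v σ)
    (he : S.fin S.root u = S.fin S.root v) (x : S.Path) (hx : S.Mem v (σ.h x)) : S.Mem u x := by
  obtain ⟨-, -, -, -, p5, -, -, -⟩ := hPWD G S
  obtain ⟨h1, h2, h3⟩ := hσ
  by_contra hu
  by_cases hv : S.Mem v x
  · have hr : S.Mem u (σ.h x) := (h2 x hv).1.2.1
    have lu := (σ.h x).2.leg u hr
    have lv := (σ.h x).2.leg v hx
    have huv : u = v := by
      rcases (σ.h x).2.lin u v hr hx with h | h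
      · exact p5 u v lu lv he h
      · exact (p5 v u lv lu he.symm h).symm
    rw [huv] at hu
    exact hu hv
  · have h4 := (h3 x hu hv).1
    rw [h4] at hx
    exact hv hx

theorem pf_SQD (hPWD : T_PWD) (hPRP : T_PRP) (hSWP : T_SWP) (hSWG : T_SWG) : T_SQD := by
  intro G X _ _ _ _ _ Y b z β ζ hb hz he hβ hζ hlb hlz
  obtain ⟨p1, p2, p3, p4, p5, p6, p7, p8⟩ := hPWD G Y.S
  obtain ⟨q1, q2, q3, q4, q5, q6, q7⟩ := hPRP G Y.S
  have hβ' : ∀ n, ∃ t, β n ++ t = β (n + 1) := hβ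
  choose τ hτ using hβ'
  have lβ : ∀ n, Y.S.Leg Y.S.root (β n) := fun n => b.2.leg _ (hb n)
  have lζ : ∀ n, Y.S.Leg Y.S.root (ζ n) := fun n => z.2.leg _ (hz n)
  have lu : ∀ n, Y.S.Leg Y.S.root (ζ n ++ τ n) := by
    intro n
    rw [p6]
    refine ⟨lζ n, ?_⟩
    have h1 := lβ (n + 1)
    rw [← hτ n, p6, he n] at h1
    exact h1.2
  have eu : ∀ n, Y.S.fin Y.S.root (ζ n ++ τ n) = Y.S.fin Y.S.root (ζ (n + 1)) := by
    intro n
    rw [p7, ← he n, ← p7, hτ n, he (n + 1)]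
  obtain ⟨γ₀, hγ₀⟩ := hSWP G Y.S (β 0) (ζ 0) (lβ 0) (lζ 0) (he 0)
  have hσ' : ∀ n, ∃ σ, IsSwap Y.S (ζ n ++ τ n) (ζ (n + 1)) σ := fun n =>
    hSWP G Y.S _ _ (lu n) (lζ (n + 1)) (eu n)
  choose σ hσ using hσ'
  let γ : ℕ → HC Y.S.Path G := fun n => Nat.rec γ₀ (fun n g => σ n * g) n
  have γs : ∀ n, γ (n + 1) = σ n * γ n := fun n => rfl
  have hA : ∀ n, (∀ y, Y.S.Mem (β n) y → Y.S.Rep (β n) (ζ n) y ((γ n).h y) ∧
      (γ n).c y = Y.S.pr (ζ n) * (Y.S.pr (β n))⁻¹) ∧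
      (∀ y, Y.S.Mem (ζ n) ((γ n).h y) → Y.S.Mem (β n) y) := by
    intro n
    induction n with
    | zero =>
      exact ⟨fun y hy => hγ₀.1 y hy,
        fun y hy => swap_onto hPWD Y.S (β 0) (ζ 0) γ₀ hγ₀ (he 0) y hy⟩
    | succ n ih =>
      obtain ⟨ihA, ihB⟩ := ih
      constructor
      · intro y hy
        have hy' : Y.S.Mem (β n ++ τ n) y := by
          rw [hτ n]
          exact hy
        have hyn : Y.S.Mem (β n) y := y.2.pre _ _ (List.prefix_append _ _) hy'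
        obtain ⟨r1, c1⟩ := ihA y hyn
        have r2 := q5 _ _ (τ n) _ _ r1 hy'
        have hm : Y.S.Mem (ζ n ++ τ n) ((γ n).h y) := r2.2.1
        obtain ⟨r3, c3⟩ := (hσ n).1 _ hm
        have r4 := q4 _ _ _ _ _ _ r2 r3
        rw [hτ n] at r4
        refine ⟨r4, ?_⟩
        rw [γs, HC.mul_c, c3, c1, pr_append, ← hτ n, pr_append]
        group
      · intro y hy
        have h1 := swap_onto hPWD Y.S (ζ n ++ τ n) (ζ (n + 1)) (σ n) (hσ n) (eu n)
          ((γ n).h y) hy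
        have h2 : Y.S.Mem (ζ n) ((γ n).h y) :=
          ((γ n).h y).2.pre _ _ (List.prefix_append _ _) h1
        have h3 := ihB y h2
        obtain ⟨r1, c1⟩ := ihA y h3
        have h4 := (r1.2.2 (τ n)).1 h1
        rw [hτ n] at h4
        exact h4
  refine ⟨γ, ⟨hb, hz, he, hβ, hζ, hlb, hlz, fun n y hy => (hA n).1 y hy,
    fun n y hy => (hA n).2 y hy, ?_, ?_, ?_⟩, ?_⟩
  · intro n y hy
    have h1 : ¬ Y.S.Mem (ζ n) ((γ n).h y) := fun h => hy ((hA n).2 y h)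
    have h2 : ¬ Y.S.Mem (ζ n ++ τ n) ((γ n).h y) := fun h =>
      h1 (((γ n).h y).2.pre _ _ (List.prefix_append _ _) h)
    have h3 : ¬ Y.S.Mem (ζ (n + 1)) ((γ n).h y) := fun h =>
      h1 (((γ n).h y).2.pre _ _ (hζ n) h)
    obtain ⟨h4, h5⟩ := (hσ n).2.2 _ h2 h3
    refine ⟨?_, ?_⟩
    · rw [γs, HC.mul_h, h4]
    · rw [γs, HC.mul_c, h5, one_mul]
  · intro n x hx
    have h2 : ¬ Y.S.Mem (ζ n ++ τ n) x := fun h =>
      hx (x.2.pre _ _ (List.prefix_append _ _) h)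
    have h3 : ¬ Y.S.Mem (ζ (n + 1)) x := fun h => hx (x.2.pre _ _ (hζ n) h)
    obtain ⟨h4, -⟩ := (hσ n).2.2 _ h2 h3
    have h5 : (σ n).h.symm x = x := by
      rw [Homeomorph.symm_apply_eq, h4]
    show (γ n).h.symm ((σ n).h.symm x) = (γ n).h.symm x
    rw [h5]
  · intro n y hy hy'
    obtain ⟨r1, c1⟩ := (hA n).1 y hy
    have h1 : ¬ Y.S.Mem (ζ n ++ τ n) ((γ n).h y) := by
      intro h
      have h6 := (r1.2.2 (τ n)).1 h
      rw [hτ n] at h6
      exact hy' h6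
    by_cases h2 : Y.S.Mem (ζ (n + 1)) ((γ n).h y)
    · right
      obtain ⟨-, c3⟩ := (hσ n).2.1 _ h2
      rw [γs, HC.mul_c, c3, c1, ← hτ n, pr_append, pr_append]
      group
    · left
      obtain ⟨-, c3⟩ := (hσ n).2.2 _ h1 h2
      rw [γs, HC.mul_c, c3, c1, one_mul]
  · intro n
    induction n with
    | zero => exact hSWG G X Y _ _ _ (he 0) hγ₀
    | succ n ih =>
      rw [γs]
      exact Y.Γ.mul_mem (hSWG G X Y _ _ _ (eu n) (hσ n)) ih

end Pool.Agent.H89.CPT
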